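import Pool.Agent.Helper39.YM.M_CS

/-!
# Project YM, FIN, module BD: the size of the quadratic form
-/

set_option autoImplicit false

namespace Pool.Agent.Helper39.YM

open Finset Helper35.YM Pool.Agent.Helper92.YMF

variable {n p : ℕ}

/-- `2 |∑ f g| ≤ x + y` if `∑ f² ≤ A`, `∑ g² ≤ B`, `4 A B ≤ (x + y)²`. -/
private lemma two_abs {J : Type} [Fintype J] (f g : J → ℝ) {A B x : ℝ} (hA : ∑ i, f i ^ 2 ≤ A)
    (hB : ∑ i, g i ^ 2 ≤ B) (hx : 0 ≤ x) (hAB : 4 * (A * B) ≤ x ^ 2) : |2 * ∑ i, f i * g i| ≤ x := by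
  refine abs_le_of_sq_le_sq ?_ hx
  have h := cs f g
  have h0 : 0 ≤ ∑ i, f i ^ 2 := sum_nonneg fun _ _ => sq_nonneg _
  have h1 : 0 ≤ ∑ i, g i ^ 2 := sum_nonneg fun _ _ => sq_nonneg _
  have h2 : (∑ i, f i ^ 2) * ∑ i, g i ^ 2 ≤ A * B := mul_le_mul hA hB h1 (h0.trans hA)
  nlinarith

private lemma two_abs3 {J J' J'' : Type} [Fintype J] [Fintype J'] [Fintype J''] (f g : J → J' → J'' → ℝ)
    {A B x : ℝ} (hA : ∑ i, ∑ j, ∑ k, f i j k ^ 2 ≤ A)
    (hB : ∑ i, ∑ j, ∑ k, g i j k ^ 2 ≤ B) (hx : 0 ≤ x) (hAB : 4 * (A * B) ≤ x ^ 2) :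
    |2 * ∑ i, ∑ j, ∑ k, f i j k * g i j k| ≤ x := by
  refine abs_le_of_sq_le_sq ?_ hx
  have h := cs3 f g
  have h0 : 0 ≤ ∑ i, ∑ j, ∑ k, f i j k ^ 2 :=
    sum_nonneg fun _ _ => sum_nonneg fun _ _ => sum_nonneg fun _ _ => sq_nonneg _
  have h1 : 0 ≤ ∑ i, ∑ j, ∑ k, g i j k ^ 2 :=
    sum_nonneg fun _ _ => sum_nonneg fun _ _ => sum_nonneg fun _ _ => sq_nonneg _
  have h2 := mul_le_mul hA hB h1 (h0.trans hA)
  nlinarith

/-- BD. -/
theorem hBD : StBD := by
  intro n p kap bet lam a h B L v t hk hb hb1 hl hl1 ha hh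
  have hS := sB_nonneg B
  have hH := nh_nonneg h
  have hL := nL_nonneg L
  have hV := nv_nonneg v
  have hT : 0 ≤ ∑ i, t i ^ 2 := sum_nonneg fun _ _ => sq_nonneg _
  have hFv := Fvv_le B v
  have hFs := Fsvv_le B v
  have hFL := FLL_sq B L L
  have hl2 := lf_sq B L
  have hth := thf_sq B L
  have hz := zf_sq h B v
  have hf := f0v_sq h B v
  have he := e12_sq h B v
  -- the products
  have htl : |2 * ∑ i, t i * lf B L i| ≤ nL L + sB B * ∑ i, t i ^ 2 :=
    two_abs t (lf B L) le_rfl hl2 (by positivity)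
      (by nlinarith [sq_nonneg (nL L - sB B * ∑ i, t i ^ 2)])
  have hlt : |2 * ∑ i, lf B L i * t i| ≤ nL L + sB B * ∑ i, t i ^ 2 := by
    have : ∑ i, lf B L i * t i = ∑ i, t i * lf B L i := sum_congr rfl fun i _ => mul_comm _ _
    rw [this]; exact htl
  have hlz : |2 * ∑ i, lf B L i * zf h B v i| ≤ sB B * (nL L + nh h * nv v) :=
    two_abs (lf B L) (zf h B v) hl2 hz (by positivity) (by
      have : 4 * (sB B * nL L * (nh h * sB B * nv v)) = sB B ^ 2 * (4 * (nL L * (nh h * nv v))) := by ring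
      rw [this, mul_pow]
      exact mul_le_mul_of_nonneg_left (by nlinarith [sq_nonneg (nL L - nh h * nv v)]) (by positivity))
  have hlf : |2 * ∑ i, lf B L i * f0v h B v i| ≤ sB B * (nL L + 4 * (nh h * nv v)) :=
    two_abs (lf B L) (f0v h B v) hl2 hf (by positivity) (by
      have : 4 * (sB B * nL L * (4 * (nh h * sB B * nv v))) =
        sB B ^ 2 * (4 * (nL L * (4 * (nh h * nv v)))) := by ring
      rw [this, mul_pow]
      exact mul_le_mul_of_nonneg_left (by nlinarith [sq_nonneg (nL L - 4 * (nh h * nv v))]) (by positivity))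
  have hee : |2 * ∑ c, ∑ b, ∑ j, e12 h B v c b j * thf B L c b j| ≤
      sB B * (4 * nL L + 40 * (nh h * nv v)) :=
    two_abs3 (fun c b j => e12 h B v c b j) (fun c b j => thf B L c b j) he hth (by positivity) (by
      have : 4 * (40 * (nh h * sB B * nv v) * (4 * (sB B * nL L))) =
        sB B ^ 2 * (4 * (4 * nL L * (40 * (nh h * nv v)))) := by ring
      rw [this, mul_pow]
      exact mul_le_mul_of_nonneg_left
        (by nlinarith [sq_nonneg (4 * nL L - 40 * (nh h * nv v))]) (by positivity))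
  have hFL2 : |FLL B L L| ≤ 2 * (sB B * nL L) := by
    refine abs_le_of_sq_le_sq ?_ (by positivity)
    calc FLL B L L ^ 2 ≤ _ := hFL
      _ = (2 * (sB B * nL L)) ^ 2 := by ring
  -- expand
  have e1 : ∑ i, lf B L i * (lf B L i + zf h B v i - f0v h B v i + lam * sB B * t i) =
      ∑ i, lf B L i ^ 2 + ∑ i, lf B L i * zf h B v i - ∑ i, lf B L i * f0v h B v i
        + lam * sB B * ∑ i, lf B L i * t i := by
    rw [mul_sum, ← sum_add_distrib, ← sum_sub_distrib, ← sum_add_distrib]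
    exact sum_congr rfl fun i _ => by ring
  have e2 : ∑ c, ∑ b, ∑ j, (thf B L c b j ^ 2 + e12 h B v c b j * thf B L c b j) =
      ∑ c, ∑ b, ∑ j, thf B L c b j ^ 2 + ∑ c, ∑ b, ∑ j, e12 h B v c b j * thf B L c b j := by
    simp only [sum_add_distrib]
  have hlpos : 0 ≤ ∑ i, lf B L i ^ 2 := sum_nonneg fun _ _ => sq_nonneg _
  have htpos : 0 ≤ ∑ c, ∑ b, ∑ j, thf B L c b j ^ 2 :=
    sum_nonneg fun _ _ => sum_nonneg fun _ _ => sum_nonneg fun _ _ => sq_nonneg _
  unfold Qf NN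
  rw [e1, e2]
  set S := sB B
  set H := nh h
  set P := nL L
  set V := nv v
  set T2 := ∑ i, t i ^ 2
  set tl := ∑ i, t i * lf B L i
  set lt := ∑ i, lf B L i * t i
  set lz := ∑ i, lf B L i * zf h B v i
  set lF := ∑ i, lf B L i * f0v h B v i
  set ll := ∑ i, lf B L i ^ 2
  set tt := ∑ c, ∑ b, ∑ j, thf B L c b j ^ 2
  set et := ∑ c, ∑ b, ∑ j, e12 h B v c b j * thf B L c b j
  set Fv := Fvv B v
  set Fs := Fsvv B v
  set FL := FLL B L L
  have hS2 : S ≤ 2 * a := by linarith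
  have hH2 : H ≤ 2 * a := by linarith
  set W := kap * a + S with hW
  have hWS : S ≤ W := by rw [hW]; nlinarith [mul_nonneg hk ha]
  have hW0 : 0 ≤ W := hS.trans hWS
  have hHV : H * V ≤ 2 * (a * V) := by nlinarith
  have hSV : S * V ≤ 2 * (a * V) := by nlinarith
  have hHSV : (H + S) * V ≤ 2 * (a * V) := by nlinarith
  have haV : 0 ≤ a * V := mul_nonneg ha hV
  have hSP : S * P ≤ W * P := mul_le_mul_of_nonneg_right hWS hL
  have hHV0 : 0 ≤ H * V := mul_nonneg hH hV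
  have hSHV : S * (H * V) ≤ 2 * (W * (a * V)) := by
    calc S * (H * V) ≤ W * (2 * (a * V)) := mul_le_mul hWS hHV hHV0 hW0
      _ = 2 * (W * (a * V)) := by ring
  have hSSV : S * (S * V) ≤ 2 * (W * (a * V)) := by
    calc S * (S * V) ≤ W * (2 * (a * V)) := mul_le_mul hWS hSV (mul_nonneg hS hV) hW0
      _ = 2 * (W * (a * V)) := by ring
  have hWSV : W * (S * V) ≤ 2 * (W * (a * V)) := by
    calc W * (S * V) ≤ W * (2 * (a * V)) := mul_le_mul_of_nonneg_left hSV hW0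
      _ = 2 * (W * (a * V)) := by ring
  have hSST : S * (S * T2) ≤ W * (S * T2) := mul_le_mul_of_nonneg_right hWS (mul_nonneg hS hT)
  have hU : 0 ≤ W * P := mul_nonneg hW0 hL
  have hVv : 0 ≤ W * (a * V) := mul_nonneg hW0 haV
  have hTt : 0 ≤ W * (S * T2) := mul_nonneg hW0 (mul_nonneg hS hT)
  have sc : ∀ {c x b : ℝ}, 0 ≤ c → c ≤ 1 → |x| ≤ b → |c * x| ≤ b := by
    intro c x b h0 h1 hx
    rw [abs_mul, abs_of_nonneg h0]
    have := abs_nonneg x
    nlinarith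
  have b2 : |W * ((H + S) * V)| ≤ 2 * (W * (a * V)) := by
    rw [abs_of_nonneg (mul_nonneg hW0 (mul_nonneg (add_nonneg hH hS) hV))]
    calc _ ≤ W * (2 * (a * V)) := mul_le_mul_of_nonneg_left hHSV hW0
      _ = 2 * (W * (a * V)) := by ring
  have b3 : |W * Fv| ≤ 4 * (W * (a * V)) := by
    rw [abs_mul, abs_of_nonneg hW0]
    calc W * |Fv| ≤ W * (2 * S * V) := mul_le_mul_of_nonneg_left hFv hW0
      _ = 2 * (W * (S * V)) := by ring
      _ ≤ 4 * (W * (a * V)) := by linarith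
  have b4 : |lam * (W * (S * (T2 + V)))| ≤ W * (S * T2) + 2 * (W * (a * V)) := by
    refine sc hl hl1 ?_
    rw [abs_of_nonneg (mul_nonneg hW0 (mul_nonneg hS (add_nonneg hT hV)))]
    calc W * (S * (T2 + V)) = W * (S * T2) + W * (S * V) := by ring
      _ ≤ _ := by linarith
  have b5 : |lam * (W * (2 * tl))| ≤ W * P + W * (S * T2) := by
    refine sc hl hl1 ?_
    rw [abs_mul, abs_of_nonneg hW0]
    calc W * |2 * tl| ≤ W * (P + S * T2) := mul_le_mul_of_nonneg_left htl hW0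
      _ = _ := by ring
  have b6 : 2 * ll ≤ 2 * (W * P) := by linarith
  have b7 : |2 * lz| ≤ W * P + 2 * (W * (a * V)) := by
    refine hlz.trans ?_
    calc S * (P + H * V) = S * P + S * (H * V) := by ring
      _ ≤ _ := by linarith
  have b8 : |2 * lF| ≤ W * P + 8 * (W * (a * V)) := by
    refine hlf.trans ?_
    calc S * (P + 4 * (H * V)) = S * P + 4 * (S * (H * V)) := by ring
      _ ≤ _ := by linarith
  have b9 : |lam * (S * (2 * lt))| ≤ W * P + W * (S * T2) := by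
    refine sc hl hl1 ?_
    rw [abs_mul, abs_of_nonneg hS]
    calc S * |2 * lt| ≤ S * (P + S * T2) := mul_le_mul_of_nonneg_left hlt hS
      _ = S * P + S * (S * T2) := by ring
      _ ≤ _ := by linarith
  have b10 : |bet * tt| ≤ 4 * (W * P) := by
    refine sc hb hb1 ?_
    rw [abs_of_nonneg htpos]
    linarith
  have b11 : |bet * (2 * et)| ≤ 4 * (W * P) + 80 * (W * (a * V)) := by
    refine sc hb hb1 (hee.trans ?_)
    calc S * (4 * P + 40 * (H * V)) = 4 * (S * P) + 40 * (S * (H * V)) := by ring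
      _ ≤ _ := by linarith
  have b12 : |bet * (2 * FL)| ≤ 4 * (W * P) := by
    refine sc hb hb1 ?_
    rw [abs_mul, abs_two]
    linarith
  have b13 : |bet * (2 * Fs)| ≤ 8 * (W * (a * V)) := by
    refine sc hb hb1 ?_
    rw [abs_mul, abs_two]
    have : S ^ 2 * V = S * (S * V) := by ring
    rw [this] at hFs
    linarith
  rw [abs_le] at b2 b3 b4 b5 b7 b8 b9 b10 b11 b12 b13
  have key : W * (P - (H + S) * V - Fv + lam * (S * (T2 + V) + 2 * tl)) +
      2 * (ll + lz - lF + lam * S * lt) - bet * (tt + et + 2 * FL + 2 * Fs) =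
      W * P - W * ((H + S) * V) - W * Fv + lam * (W * (S * (T2 + V))) + lam * (W * (2 * tl)) +
      2 * ll + 2 * lz - 2 * lF + lam * (S * (2 * lt)) - bet * tt - bet * (2 * et) / 2 -
      bet * (2 * FL) - bet * (2 * Fs) := by ring
  rw [key, abs_le]
  obtain ⟨c2, d2⟩ := b2
  obtain ⟨c3, d3⟩ := b3
  obtain ⟨c4, d4⟩ := b4
  obtain ⟨c5, d5⟩ := b5
  obtain ⟨c7, d7⟩ := b7
  obtain ⟨c8, d8⟩ := b8
  obtain ⟨c9, d9⟩ := b9
  obtain ⟨c10, d10⟩ := b10
  obtain ⟨c11, d11⟩ := b11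
  obtain ⟨c12, d12⟩ := b12
  obtain ⟨c13, d13⟩ := b13
  constructor <;> linarith

end Pool.Agent.Helper39.YM

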