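import Pool.Agent.Helper39.YM.StFin
import Pool.Agent.Helper92.YMF.Bd

/-!
# Project YM, FIN, module CS: Cauchy–Schwarz bounds
-/

set_option autoImplicit false

namespace Pool.Agent.Helper39.YM

open Finset Helper35.YM Pool.Agent.Helper92.YMF

variable {n p : ℕ}

theorem sB_nh (B : Fin p → Fin n → Fin n → ℝ) : ∑ a, nh (B a) = sB B := rfl

/-- `|[P,Q]|² ≤ 4 |P|²|Q|²`. -/
theorem cmt_nh (P Q : Fin n → Fin n → ℝ) : nh (cmt P Q) ≤ 4 * (nh P * nh Q) := by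
  have h : ∀ i j, cmt P Q i j ^ 2 ≤
      2 * ((∑ l, P i l ^ 2) * ∑ l, Q l j ^ 2) + 2 * ((∑ l, Q i l ^ 2) * ∑ l, P l j ^ 2) := by
    intro i j
    have h1 := cs (fun l => P i l) (fun l => Q l j)
    have h2 := cs (fun l => Q i l) (fun l => P l j)
    unfold cmt
    rw [sum_sub_distrib]
    nlinarith [sq_nonneg (∑ l, P i l * Q l j + ∑ l, Q i l * P l j)]
  have e1 : ∀ A : Fin n → Fin n → ℝ, ∑ j, ∑ l, A l j ^ 2 = nh A := fun A => by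
    unfold nh; rw [sum_comm]
  have e2 : ∀ A A' : Fin n → Fin n → ℝ, ∑ i, ∑ j, ((∑ l, A i l ^ 2) * ∑ l, A' l j ^ 2) = nh A * nh A' := by
    intro A A'
    rw [← sum_mul_sum, e1 A']
    rfl
  calc nh (cmt P Q) ≤ ∑ i, ∑ j, (2 * ((∑ l, P i l ^ 2) * ∑ l, Q l j ^ 2) +
        2 * ((∑ l, Q i l ^ 2) * ∑ l, P l j ^ 2)) :=
        sum_le_sum fun i _ => sum_le_sum fun j _ => h i j
    _ = 2 * (∑ i, ∑ j, ((∑ l, P i l ^ 2) * ∑ l, Q l j ^ 2)) +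
        2 * (∑ i, ∑ j, ((∑ l, Q i l ^ 2) * ∑ l, P l j ^ 2)) := by
        simp only [sum_add_distrib, mul_sum]
    _ = 4 * (nh P * nh Q) := by rw [e2, e2]; ring

/-- `∑ p_a² ≤ |h|² S`. -/
theorem pB_sq (h : Fin n → Fin n → ℝ) (B : Fin p → Fin n → Fin n → ℝ) :
    ∑ a, pB h B a ^ 2 ≤ nh h * sB B := by
  rw [← sB_nh, mul_sum]
  exact sum_le_sum fun a _ => cs2 h (B a)

/-- `∑ |[h, B^a]|² ≤ 4 |h|² S`. -/
theorem cmt0_sq (h : Fin n → Fin n → ℝ) (B : Fin p → Fin n → Fin n → ℝ) :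
    ∑ a, nh (cmt h (B a)) ≤ 4 * (nh h * sB B) := by
  rw [← sB_nh, mul_sum, mul_sum]
  exact sum_le_sum fun a _ => cmt_nh h (B a)

theorem nv_comm (v : Fin p → Fin n → ℝ) : ∑ i, ∑ a, v a i ^ 2 = nv v := by
  unfold nv; rw [sum_comm]

theorem zf_sq (h : Fin n → Fin n → ℝ) (B : Fin p → Fin n → Fin n → ℝ) (v : Fin p → Fin n → ℝ) :
    ∑ i, zf h B v i ^ 2 ≤ nh h * sB B * nv v := by
  calc ∑ i, zf h B v i ^ 2 ≤ ∑ i, (∑ a, pB h B a ^ 2) * ∑ a, v a i ^ 2 :=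
        sum_le_sum fun i _ => cs (pB h B) (fun a => v a i)
    _ = (∑ a, pB h B a ^ 2) * nv v := by rw [← mul_sum, nv_comm]
    _ ≤ nh h * sB B * nv v := mul_le_mul_of_nonneg_right (pB_sq h B) (nv_nonneg v)

theorem f0v_sq (h : Fin n → Fin n → ℝ) (B : Fin p → Fin n → Fin n → ℝ) (v : Fin p → Fin n → ℝ) :
    ∑ i, f0v h B v i ^ 2 ≤ 4 * (nh h * sB B * nv v) := by
  calc ∑ i, f0v h B v i ^ 2 ≤ ∑ i, (∑ a, ∑ j, cmt h (B a) i j ^ 2) * nv v :=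
        sum_le_sum fun i _ => cs2 (fun a j => cmt h (B a) i j) v
    _ = (∑ a, nh (cmt h (B a))) * nv v := by
        rw [← sum_mul, sum_comm]
        rfl
    _ ≤ 4 * (nh h * sB B) * nv v := mul_le_mul_of_nonneg_right (cmt0_sq h B) (nv_nonneg v)
    _ = 4 * (nh h * sB B * nv v) := by ring

/-- Products of sums, three indices. -/
theorem prodab (f g : Fin p → Fin n → ℝ) (P : Fin p → ℝ) :
    ∑ a, ∑ b, ∑ j, P a * g b j = (∑ a, P a) * ∑ b, ∑ j, g b j := by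
  simp only [← mul_sum, ← sum_mul]

theorem thf_sq (B : Fin p → Fin n → Fin n → ℝ) (L : Fin p → Fin n → Fin n → Fin n → ℝ) :
    ∑ a, ∑ b, ∑ j, thf B L a b j ^ 2 ≤ 4 * (sB B * nL L) := by
  have h : ∀ a b i, thf B L a b i ^ 2 ≤ 2 * (nh (B a) * ∑ j, ∑ k, L b i j k ^ 2) +
      2 * (nh (B b) * ∑ j, ∑ k, L a i j k ^ 2) := by
    intro a b i
    have h1 := cs2 (B a) (fun j k => L b i j k)
    have h2 := cs2 (B b) (fun j k => L a i j k)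
    unfold thf
    simp only [sum_sub_distrib]
    unfold nh
    nlinarith [sq_nonneg (∑ j, ∑ k, B a j k * L b i j k + ∑ j, ∑ k, B b j k * L a i j k)]
  have e1 : ∑ a, ∑ b, ∑ i, (nh (B a) * ∑ j, ∑ k, L b i j k ^ 2) = sB B * nL L := by
    rw [prodab (fun _ _ => 0) (fun b i => ∑ j, ∑ k, L b i j k ^ 2) (fun a => nh (B a))]
    rfl
  have e2 : ∑ a, ∑ b, ∑ i, (nh (B b) * ∑ j, ∑ k, L a i j k ^ 2) = sB B * nL L := by
    rw [sum_comm, e1]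
  calc ∑ a, ∑ b, ∑ j, thf B L a b j ^ 2 ≤ ∑ a, ∑ b, ∑ i, (2 * (nh (B a) * ∑ j, ∑ k, L b i j k ^ 2) +
      2 * (nh (B b) * ∑ j, ∑ k, L a i j k ^ 2)) :=
        sum_le_sum fun a _ => sum_le_sum fun b _ => sum_le_sum fun i _ => h a b i
    _ = 2 * (∑ a, ∑ b, ∑ i, (nh (B a) * ∑ j, ∑ k, L b i j k ^ 2)) +
        2 * ∑ a, ∑ b, ∑ i, (nh (B b) * ∑ j, ∑ k, L a i j k ^ 2) := by
        simp only [sum_add_distrib, ← mul_sum]
    _ = 4 * (sB B * nL L) := by rw [e1, e2]; ring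

theorem e12_sq (h : Fin n → Fin n → ℝ) (B : Fin p → Fin n → Fin n → ℝ) (v : Fin p → Fin n → ℝ) :
    ∑ a, ∑ b, ∑ j, e12 h B v a b j ^ 2 ≤ 40 * (nh h * sB B * nv v) := by
  have hp : ∀ a b j, e12 h B v a b j ^ 2 ≤ 4 * (pB h B a ^ 2 * v b j ^ 2) + 4 * (pB h B b ^ 2 * v a j ^ 2)
      + 4 * ((∑ i, v a i ^ 2) * ∑ i, cmt h (B b) i j ^ 2)
      + 4 * ((∑ i, v b i ^ 2) * ∑ i, cmt h (B a) i j ^ 2) := by
    intro a b j
    have h1 := cs (v a) (fun i => cmt h (B b) i j)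
    have h2 := cs (v b) (fun i => cmt h (B a) i j)
    unfold e12
    rw [sum_sub_distrib]
    set x1 := pB h B a * v b j with hx1
    set x2 := pB h B b * v a j with hx2
    set x3 := ∑ i, v a i * cmt h (B b) i j
    set x4 := ∑ i, v b i * cmt h (B a) i j
    have g1 : pB h B a ^ 2 * v b j ^ 2 = x1 ^ 2 := by rw [hx1]; ring
    have g2 : pB h B b ^ 2 * v a j ^ 2 = x2 ^ 2 := by rw [hx2]; ring
    rw [g1, g2]
    nlinarith [sq_nonneg (x1 + x2), sq_nonneg (x3 + x4), sq_nonneg (x1 - x2 + (x3 - x4))]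
  have c1 : ∀ b, ∑ j, ∑ i, cmt h (B b) i j ^ 2 = nh (cmt h (B b)) := fun b => by
    unfold nh; rw [sum_comm]
  have e1 : ∑ a, ∑ b, ∑ j, (pB h B a ^ 2 * v b j ^ 2) = (∑ a, pB h B a ^ 2) * nv v := by
    rw [prodab (fun _ _ => 0) (fun b j => v b j ^ 2) (fun a => pB h B a ^ 2)]
    rfl
  have e2 : ∑ a, ∑ b, ∑ j, (pB h B b ^ 2 * v a j ^ 2) = (∑ a, pB h B a ^ 2) * nv v := by
    rw [sum_comm, e1]
  have e3 : ∑ a, ∑ b, ∑ j, ((∑ i, v a i ^ 2) * ∑ i, cmt h (B b) i j ^ 2) =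
      nv v * ∑ b, nh (cmt h (B b)) := by
    rw [prodab (fun _ _ => 0) (fun b j => ∑ i, cmt h (B b) i j ^ 2) (fun a => ∑ i, v a i ^ 2)]
    simp only [c1]
    rfl
  have e4 : ∑ a, ∑ b, ∑ j, ((∑ i, v b i ^ 2) * ∑ i, cmt h (B a) i j ^ 2) =
      nv v * ∑ b, nh (cmt h (B b)) := by
    rw [sum_comm, e3]
  have b1 := mul_le_mul_of_nonneg_right (pB_sq h B) (nv_nonneg v)
  have b2 := mul_le_mul_of_nonneg_left (cmt0_sq h B) (nv_nonneg v)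
  calc ∑ a, ∑ b, ∑ j, e12 h B v a b j ^ 2 ≤ ∑ a, ∑ b, ∑ j, (4 * (pB h B a ^ 2 * v b j ^ 2)
      + 4 * (pB h B b ^ 2 * v a j ^ 2)
      + 4 * ((∑ i, v a i ^ 2) * ∑ i, cmt h (B b) i j ^ 2)
      + 4 * ((∑ i, v b i ^ 2) * ∑ i, cmt h (B a) i j ^ 2)) :=
        sum_le_sum fun a _ => sum_le_sum fun b _ => sum_le_sum fun i _ => hp a b i
    _ = 4 * (∑ a, ∑ b, ∑ j, (pB h B a ^ 2 * v b j ^ 2)) + 4 * (∑ a, ∑ b, ∑ j, (pB h B b ^ 2 * v a j ^ 2))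
        + 4 * (∑ a, ∑ b, ∑ j, ((∑ i, v a i ^ 2) * ∑ i, cmt h (B b) i j ^ 2))
        + 4 * (∑ a, ∑ b, ∑ j, ((∑ i, v b i ^ 2) * ∑ i, cmt h (B a) i j ^ 2)) := by
        simp only [sum_add_distrib, ← mul_sum]
    _ ≤ 40 * (nh h * sB B * nv v) := by rw [e1, e2, e3, e4]; nlinarith

theorem sgB_sq (B : Fin p → Fin n → Fin n → ℝ) : ∑ a, ∑ c, sgB B a c ^ 2 ≤ sB B ^ 2 := by
  calc ∑ a, ∑ c, sgB B a c ^ 2 ≤ ∑ a, ∑ c, nh (B a) * nh (B c) :=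
        sum_le_sum fun a _ => sum_le_sum fun c _ => cs2 (B a) (B c)
    _ = sB B ^ 2 := by rw [← sum_mul_sum, sB_nh]; ring

theorem prodvv (u v : Fin p → Fin n → ℝ) : ∑ a, ∑ b, ∑ i, ∑ j, (v b i * u a j) ^ 2 = nv v * nv u := by
  rw [sum_comm]
  simp only [mul_pow]
  rw [prod4 (fun b i => v b i ^ 2) (fun a j => u a j ^ 2)]
  rfl

theorem Fsvv_le (B : Fin p → Fin n → Fin n → ℝ) (v : Fin p → Fin n → ℝ) :
    |Fsvv B v| ≤ 2 * (sB B ^ 2 * nv v) := by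
  set u : Fin p → Fin n → ℝ := fun a j => ∑ c, sgB B a c * v c j with hu
  have e : Fsvv B v = ∑ a, ∑ b, ∑ i, ∑ j, cmt (B a) (B b) i j * (v b i * u a j) := by
    unfold Fsvv
    refine sum_congr rfl fun a _ => sum_congr rfl fun b _ => ?_
    rw [sum_comm]
    refine sum_congr rfl fun i _ => ?_
    rw [sum_comm]
    refine sum_congr rfl fun j _ => ?_
    rw [hu]
    simp only [mul_sum]
    exact sum_congr rfl fun c _ => by ring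
  have hnu : nv u ≤ sB B ^ 2 * nv v := by
    calc nv u ≤ ∑ a, ∑ j, (∑ c, sgB B a c ^ 2) * ∑ c, v c j ^ 2 :=
          sum_le_sum fun a _ => sum_le_sum fun j _ => cs (fun c => sgB B a c) (fun c => v c j)
      _ = (∑ a, ∑ c, sgB B a c ^ 2) * nv v := by rw [← sum_mul_sum, nv_comm v]
      _ ≤ sB B ^ 2 * nv v := mul_le_mul_of_nonneg_right (sgB_sq B) (nv_nonneg v)
  have h1 := cs4 (fun (a b : Fin p) (i j : Fin n) => cmt (B a) (B b) i j) (fun a b i j => v b i * u a j)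
  rw [prodvv, ← e] at h1
  have h3 : Fsvv B v ^ 2 ≤ (2 * (sB B ^ 2 * nv v)) ^ 2 := by
    have hS := sB_nonneg B
    have hV := nv_nonneg v
    have hU := nv_nonneg u
    calc Fsvv B v ^ 2 ≤ _ := h1
      _ ≤ (4 * sB B ^ 2) * (nv v * nv u) :=
          mul_le_mul_of_nonneg_right (cmt_sq B) (mul_nonneg hV hU)
      _ ≤ (4 * sB B ^ 2) * (nv v * (sB B ^ 2 * nv v)) :=
          mul_le_mul_of_nonneg_left (mul_le_mul_of_nonneg_left hnu hV) (by positivity)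
      _ = (2 * (sB B ^ 2 * nv v)) ^ 2 := by ring
  exact abs_le_of_sq_le_sq h3 (by have := sB_nonneg B; have := nv_nonneg v; positivity)

theorem FLL_sq (B : Fin p → Fin n → Fin n → ℝ) (L L' : Fin p → Fin n → Fin n → Fin n → ℝ) :
    FLL B L L' ^ 2 ≤ 4 * (sB B ^ 2 * (nL L * nL L')) := by
  have h1 := cs4 (fun (a b : Fin p) (i j : Fin n) => cmt (B a) (B b) i j)
    (fun a b i j => ∑ k, ∑ l, L a i k l * L' b j k l)
  have h2 : ∑ a, ∑ b, ∑ i, ∑ j, (∑ k, ∑ l, L a i k l * L' b j k l) ^ 2 ≤ nL L * nL L' := by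
    calc _ ≤ ∑ a, ∑ b, ∑ i, ∑ j, (∑ k, ∑ l, L a i k l ^ 2) * ∑ k, ∑ l, L' b j k l ^ 2 :=
          sum_le_sum fun a _ => sum_le_sum fun b _ => sum_le_sum fun i _ => sum_le_sum fun j _ =>
            cs2 (fun k l => L a i k l) (fun k l => L' b j k l)
      _ = nL L * nL L' :=
          prod4 (fun a i => ∑ k, ∑ l, L a i k l ^ 2) (fun b j => ∑ k, ∑ l, L' b j k l ^ 2)
  have hL := nL_nonneg L
  have hL' := nL_nonneg L'
  calc FLL B L L' ^ 2 ≤ _ := h1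
    _ ≤ (4 * sB B ^ 2) * (nL L * nL L') :=
        mul_le_mul (cmt_sq B) h2 (sum_nonneg fun _ _ => sum_nonneg fun _ _ => sum_nonneg fun _ _ =>
          sum_nonneg fun _ _ => sq_nonneg _) (by positivity)
    _ = 4 * (sB B ^ 2 * (nL L * nL L')) := by ring

/-- CS. -/
theorem hCS : StCS := by
  intro n p h B L L' v
  refine ⟨lf_sq B L, thf_sq B L, zf_sq h B v, f0v_sq h B v, e12_sq h B v, cmt_sq B, ?_, Fsvv_le B v,
    FLL_sq B L L'⟩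
  have := Fvv_le B v
  linarith

end Pool.Agent.Helper39.YM

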