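import Pool.Agent.Helper39.YM.StFin

/-!
# Project YM, FIN, modules GQ and QF: the gradient form is a quadratic form
-/

set_option autoImplicit false

namespace Pool.Agent.Helper39.YM

open Helper35.YM Pool.Agent.Helper92.YMF

/-- GQ. -/
theorem hGQ : StGQ := by
  intro n p kap bet lam h B L v y X
  unfold Ga Qf G1 GX G2
  ring

/-- Affine functions of one variable. -/
private def Af (u : ℝ → ℝ) (u0 u1 : ℝ) : Prop := ∀ s, u s = u0 + s * u1

/-- Quadratic functions of one variable. -/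
private def Q2 (f : ℝ → ℝ) (f0 f2 : ℝ) : Prop := ∃ b, ∀ s, f s = f0 + s * b + s ^ 2 * f2

private lemma afAdd {u w : ℝ → ℝ} {u0 u1 w0 w1 : ℝ} (hu : Af u u0 u1) (hw : Af w w0 w1) :
    Af (fun s => u s + w s) (u0 + w0) (u1 + w1) := fun s => by
  show u s + w s = _
  rw [hu s, hw s]; ring

private lemma afSub {u w : ℝ → ℝ} {u0 u1 w0 w1 : ℝ} (hu : Af u u0 u1) (hw : Af w w0 w1) :
    Af (fun s => u s - w s) (u0 - w0) (u1 - w1) := fun s => by
  show u s - w s = _
  rw [hu s, hw s]; ring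

private lemma afMul (c : ℝ) {u : ℝ → ℝ} {u0 u1 : ℝ} (hu : Af u u0 u1) :
    Af (fun s => c * u s) (c * u0) (c * u1) := fun s => by
  show c * u s = _
  rw [hu s]; ring

private lemma afMul' (c : ℝ) {u : ℝ → ℝ} {u0 u1 : ℝ} (hu : Af u u0 u1) :
    Af (fun s => u s * c) (u0 * c) (u1 * c) := fun s => by
  show u s * c = _
  rw [hu s]; ring

private lemma afSum {ι : Type} [Fintype ι] {u : ι → ℝ → ℝ} {u0 u1 : ι → ℝ}
    (h : ∀ i, Af (u i) (u0 i) (u1 i)) : Af (fun s => ∑ i, u i s) (∑ i, u0 i) (∑ i, u1 i) := fun s => by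
  show ∑ i, u i s = _
  rw [Finset.mul_sum, ← Finset.sum_add_distrib]
  exact Finset.sum_congr rfl fun i _ => h i s

private lemma q2Mul {u w : ℝ → ℝ} {u0 u1 w0 w1 : ℝ} (hu : Af u u0 u1) (hw : Af w w0 w1) :
    Q2 (fun s => u s * w s) (u0 * w0) (u1 * w1) := ⟨u0 * w1 + u1 * w0, fun s => by
  show u s * w s = _
  rw [hu s, hw s]; ring⟩

private lemma q2Sq {u : ℝ → ℝ} {u0 u1 : ℝ} (hu : Af u u0 u1) :
    Q2 (fun s => u s ^ 2) (u0 ^ 2) (u1 ^ 2) := ⟨2 * u0 * u1, fun s => by
  show u s ^ 2 = _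
  rw [hu s]; ring⟩

private lemma q2Add {f g : ℝ → ℝ} {f0 f2 g0 g2 : ℝ} (hf : Q2 f f0 f2) (hg : Q2 g g0 g2) :
    Q2 (fun s => f s + g s) (f0 + g0) (f2 + g2) := by
  obtain ⟨b, hb⟩ := hf
  obtain ⟨c, hc⟩ := hg
  exact ⟨b + c, fun s => by show f s + g s = _; rw [hb s, hc s]; ring⟩

private lemma q2Sub {f g : ℝ → ℝ} {f0 f2 g0 g2 : ℝ} (hf : Q2 f f0 f2) (hg : Q2 g g0 g2) :
    Q2 (fun s => f s - g s) (f0 - g0) (f2 - g2) := by
  obtain ⟨b, hb⟩ := hf
  obtain ⟨c, hc⟩ := hg
  exact ⟨b - c, fun s => by show f s - g s = _; rw [hb s, hc s]; ring⟩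

private lemma q2C (c : ℝ) {f : ℝ → ℝ} {f0 f2 : ℝ} (hf : Q2 f f0 f2) :
    Q2 (fun s => c * f s) (c * f0) (c * f2) := by
  obtain ⟨b, hb⟩ := hf
  exact ⟨c * b, fun s => by show c * f s = _; rw [hb s]; ring⟩

private lemma q2Sum {ι : Type} [Fintype ι] {f : ι → ℝ → ℝ} {f0 f2 : ι → ℝ}
    (h : ∀ i, Q2 (f i) (f0 i) (f2 i)) : Q2 (fun s => ∑ i, f i s) (∑ i, f0 i) (∑ i, f2 i) := by
  choose b hb using h
  refine ⟨∑ i, b i, fun s => ?_⟩
  show ∑ i, f i s = _
  rw [Finset.mul_sum, Finset.mul_sum, ← Finset.sum_add_distrib, ← Finset.sum_add_distrib]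
  exact Finset.sum_congr rfl fun i _ => hb i s

section

variable {n p : ℕ} (h : Fin n → Fin n → ℝ) (B : Fin p → Fin n → Fin n → ℝ)
  (L L' : Fin p → Fin n → Fin n → Fin n → ℝ) (v v' : Fin p → Fin n → ℝ) (t t' : Fin n → ℝ)

private lemma afL (c : Fin p) (i j k : Fin n) :
    Af (fun s => (L + s • L') c i j k) (L c i j k) (L' c i j k) := fun _ => rfl

private lemma afv (c : Fin p) (i : Fin n) :
    Af (fun s => (v + s • v') c i) (v c i) (v' c i) := fun _ => rfl

private lemma aft (i : Fin n) : Af (fun s => (t + s • t') i) (t i) (t' i) := fun _ => rfl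

private lemma aflf (i : Fin n) : Af (fun s => lf B (L + s • L') i) (lf B L i) (lf B L' i) := by
  unfold lf
  exact afSum fun a => afSum fun j => afSum fun k => afMul _ (afL L L' a i j k)

private lemma afthf (a b : Fin p) (i : Fin n) :
    Af (fun s => thf B (L + s • L') a b i) (thf B L a b i) (thf B L' a b i) := by
  unfold thf
  exact afSum fun j => afSum fun k => afSub (afMul _ (afL L L' b i j k)) (afMul _ (afL L L' a i j k))

private lemma afzf (i : Fin n) : Af (fun s => zf h B (v + s • v') i) (zf h B v i) (zf h B v' i) := by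
  unfold zf
  exact afSum fun a => afMul _ (afv v v' a i)

private lemma aff0v (i : Fin n) :
    Af (fun s => f0v h B (v + s • v') i) (f0v h B v i) (f0v h B v' i) := by
  unfold f0v
  exact afSum fun a => afSum fun j => afMul _ (afv v v' a j)

private lemma afe12 (a b : Fin p) (j : Fin n) :
    Af (fun s => e12 h B (v + s • v') a b j) (e12 h B v a b j) (e12 h B v' a b j) := by
  unfold e12
  exact afSub (afSub (afMul _ (afv v v' b j)) (afMul _ (afv v v' a j)))
    (afSum fun i => afSub (afMul' _ (afv v v' a i)) (afMul' _ (afv v v' b i)))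

private lemma q2nL : Q2 (fun s => nL (L + s • L')) (nL L) (nL L') := by
  unfold nL
  exact q2Sum fun a => q2Sum fun i => q2Sum fun j => q2Sum fun k => q2Sq (afL L L' a i j k)

private lemma q2nv : Q2 (fun s => nv (v + s • v')) (nv v) (nv v') := by
  unfold nv
  exact q2Sum fun a => q2Sum fun i => q2Sq (afv v v' a i)

private lemma q2Fvv : Q2 (fun s => Fvv B (v + s • v')) (Fvv B v) (Fvv B v') := by
  unfold Fvv
  exact q2Sum fun a => q2Sum fun b => q2Sum fun i => q2Sum fun j =>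
    q2C _ (q2Mul (afv v v' b i) (afv v v' a j))

private lemma q2Fsvv : Q2 (fun s => Fsvv B (v + s • v')) (Fsvv B v) (Fsvv B v') := by
  unfold Fsvv
  exact q2Sum fun a => q2Sum fun b => q2Sum fun c => q2Sum fun i => q2Sum fun j =>
    q2C _ (q2Mul (afv v v' b i) (afv v v' c j))

private lemma q2FLL : Q2 (fun s => FLL B (L + s • L') (L + s • L')) (FLL B L L) (FLL B L' L') := by
  unfold FLL
  exact q2Sum fun a => q2Sum fun b => q2Sum fun i => q2Sum fun j =>
    q2C _ (q2Sum fun k => q2Sum fun l => q2Mul (afL L L' a i k l) (afL L L' b j k l))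

private lemma q2Qf (kap bet lam a : ℝ) :
    Q2 (fun s => Qf kap bet lam a h B (L + s • L') (v + s • v') (t + s • t'))
      (Qf kap bet lam a h B L v t) (Qf kap bet lam a h B L' v' t') := by
  unfold Qf
  refine q2Sub (q2Add (q2C _ (q2Add (q2Sub (q2Sub (q2nL L L') (q2C _ (q2nv v v'))) (q2Fvv B v v'))
    (q2C _ (q2Add (q2C _ (q2Add (q2Sum fun i => q2Sq (aft t t' i)) (q2nv v v')))
      (q2C _ (q2Sum fun i => q2Mul (aft t t' i) (aflf B L L' i))))))) ?_) ?_
  · have := q2C 2 (q2Sum fun i => q2Mul (aflf B L L' i) (afAdd (afSub (afAdd (aflf B L L' i)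
      (afzf h B v v' i)) (aff0v h B v v' i)) (afMul (lam * sB B) (aft t t' i))))
    exact this
  · exact q2C _ (q2Add (q2Add (q2Sum fun c => q2Sum fun b => q2Sum fun j =>
      q2Add (q2Sq (afthf B L L' c b j)) (q2Mul (afe12 h B v v' c b j) (afthf B L L' c b j)))
      (q2C _ (q2FLL B L L'))) (q2C _ (q2Fsvv B v v')))

end

/-- QF. -/
theorem hQF : StQF := by
  intro n p kap bet lam a d h B L L' v v' t t' hd
  obtain ⟨b, hb⟩ := q2Qf h B L L' v v' t t' kap bet lam a
  have h1 := hb 1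
  have h2 := hb d⁻¹
  beta_reduce at h2
  simp only [one_smul] at h1
  rw [h1, h2]
  field_simp
  ring

end Pool.Agent.Helper39.YM

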