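import Pool.Agent.Helper92.YMF.Lin

/-!
# Project YM, FIN (linked form): from the size-free limit inequality LIML to CGRAD

Definitions of `Helper35/YM/DefC.lean`. `a = 1/n`, `m = h - a δ`, `μ = |m|² = |h|² - a ≤ a - S`, `v0 = B X`, `y0 = m X`, `r = v - v0`, `ρ = y - h X`, `t = y - a X = y0 + ρ`,
`T0 = T - a (δ_ij v_k + δ_jk v_i + δ_ik v_j)` (totally symmetric), `L0 = Lf m B T0 v0 y0`, `R1 = r1 a v0`. Then EXACTLY `L = L0 + R1 + E`, `E = r1 a r - m ⊗ r - (a X + ρ) ⊗ B`.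
`Ga = Qf + (kap a + S) lam S (a - a²)|X|²`, `Qf` a quadratic form in `(L, v, t)` with `|Qf| ≤ 70 (kap a + S) NN`, `NN = |L|² + a|v|² + S|t|²`. For a quadratic form and `d ≠ 0`:
`Qf(z + e) = (1-δ) Qf(z) + (1 - 1/δ) Qf(e) + δ Qf(z + e/δ)`: with `δ = √a` all error terms are `≥ - C √a (kap a + S) M - C (|r|² + |ρ|²)`, `M = |L0|² + a S|X|²`.
-/

set_option autoImplicit false

namespace Pool.Agent.Helper39.YM

open Helper35.YM Pool.Agent.Helper92.YMF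

variable {n p : ℕ}

/-- The quadratic form `Ga` without the `|X|²` term, `t = y - a X`. -/
noncomputable def Qf (kap bet lam a : ℝ) (h : Fin n → Fin n → ℝ) (B : Fin p → Fin n → Fin n → ℝ)
    (L : Fin p → Fin n → Fin n → Fin n → ℝ) (v : Fin p → Fin n → ℝ) (t : Fin n → ℝ) : ℝ :=
  (kap * a + sB B) * (nL L - (nh h + sB B) * nv v - Fvv B v
      + lam * (sB B * (∑ i, t i ^ 2 + nv v) + 2 * ∑ i, t i * lf B L i))
    + 2 * ∑ i, lf B L i * (lf B L i + zf h B v i - f0v h B v i + lam * sB B * t i)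
    - bet * (∑ c, ∑ b, ∑ j, (thf B L c b j ^ 2 + e12 h B v c b j * thf B L c b j)
      + 2 * FLL B L L + 2 * Fsvv B v)

/-- `N(z) = |L|² + a|v|² + S|t|²`. -/
noncomputable def NN (a : ℝ) (B : Fin p → Fin n → Fin n → ℝ)
    (L : Fin p → Fin n → Fin n → Fin n → ℝ) (v : Fin p → Fin n → ℝ) (t : Fin n → ℝ) : ℝ :=
  nL L + a * nv v + sB B * ∑ i, t i ^ 2

/-- `R1(v)_ijk = a (δ_ij v_k + δ_ik v_j)`. -/
def r1 (a : ℝ) (v : Fin p → Fin n → ℝ) (c : Fin p) (i j k : Fin n) : ℝ :=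
  a * ((if i = j then v c k else 0) + (if i = k then v c j else 0))

/-- GQ (helper39). `Ga = Qf + (kap a + S) lam S (a - a²)|X|²`. -/
def StGQ : Prop := ∀ (n p : ℕ) (kap bet lam : ℝ) (h : Fin n → Fin n → ℝ)
  (B : Fin p → Fin n → Fin n → ℝ) (L : Fin p → Fin n → Fin n → Fin n → ℝ)
  (v : Fin p → Fin n → ℝ) (y X : Fin n → ℝ),
  Ga kap bet lam h B L v y X =
    Qf kap bet lam (1 / (n : ℝ)) h B L v (fun i => y i - 1 / (n : ℝ) * X i) +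
    (kap * (1 / (n : ℝ)) + sB B) * (lam * (sB B * ((1 / (n : ℝ) - (1 / (n : ℝ)) ^ 2) * ∑ i, X i ^ 2)))

/-- QF (helper39). `Qf` is a quadratic form. -/
def StQF : Prop := ∀ (n p : ℕ) (kap bet lam a d : ℝ) (h : Fin n → Fin n → ℝ)
  (B : Fin p → Fin n → Fin n → ℝ) (L L' : Fin p → Fin n → Fin n → Fin n → ℝ)
  (v v' : Fin p → Fin n → ℝ) (t t' : Fin n → ℝ), d ≠ 0 →
  Qf kap bet lam a h B (L + L') (v + v') (t + t') =
    (1 - d) * Qf kap bet lam a h B L v t + (1 - d⁻¹) * Qf kap bet lam a h B L' v' t' +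
      d * Qf kap bet lam a h B (L + d⁻¹ • L') (v + d⁻¹ • v') (t + d⁻¹ • t')

/-- BD (helper39). The size of `Qf`. -/
def StBD : Prop := ∀ (n p : ℕ) (kap bet lam a : ℝ) (h : Fin n → Fin n → ℝ)
  (B : Fin p → Fin n → Fin n → ℝ) (L : Fin p → Fin n → Fin n → Fin n → ℝ)
  (v : Fin p → Fin n → ℝ) (t : Fin n → ℝ), 0 ≤ kap → 0 ≤ bet → bet ≤ 1 → 0 ≤ lam → lam ≤ 1 →
  0 ≤ a → nh h + sB B ≤ 2 * a →
  |Qf kap bet lam a h B L v t| ≤ 70 * ((kap * a + sB B) * NN a B L v t)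

/-- CS (helper39). The Cauchy–Schwarz bounds. -/
def StCS : Prop := ∀ (n p : ℕ) (h : Fin n → Fin n → ℝ) (B : Fin p → Fin n → Fin n → ℝ)
  (L L' : Fin p → Fin n → Fin n → Fin n → ℝ) (v : Fin p → Fin n → ℝ),
  ∑ i, lf B L i ^ 2 ≤ sB B * nL L ∧
  ∑ a, ∑ b, ∑ j, thf B L a b j ^ 2 ≤ 4 * (sB B * nL L) ∧
  ∑ i, zf h B v i ^ 2 ≤ nh h * sB B * nv v ∧
  ∑ i, f0v h B v i ^ 2 ≤ 4 * (nh h * sB B * nv v) ∧
  ∑ a, ∑ b, ∑ j, e12 h B v a b j ^ 2 ≤ 40 * (nh h * sB B * nv v) ∧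
  ∑ a, ∑ b, nh (cmt (B a) (B b)) ≤ 4 * sB B ^ 2 ∧
  |Fvv B v| ≤ 2 * (sB B * nv v) ∧
  |Fsvv B v| ≤ 2 * (sB B ^ 2 * nv v) ∧
  FLL B L L' ^ 2 ≤ 4 * (sB B ^ 2 * (nL L * nL L'))

/-- R1 (identities, helper21). -/
def StR1 : Prop := ∀ (n p : ℕ) (a : ℝ) (B : Fin p → Fin n → Fin n → ℝ)
  (L : Fin p → Fin n → Fin n → Fin n → ℝ) (v : Fin p → Fin n → ℝ),
  (∀ c i j, B c i j = B c j i) → (∀ c i j k, L c i j k = L c i k j) →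
  nL (r1 a v) = 2 * a ^ 2 * (n + 1) * nv v ∧
  nL (L + r1 a v) = nL L + 4 * (a * ∑ c, ∑ k, (∑ i, L c i i k) * v c k) + nL (r1 a v) ∧
  (∀ i, lf B (r1 a v) i = 2 * a * ∑ c, ∑ k, B c i k * v c k) ∧
  (∀ c b i, thf B (r1 a v) c b i = 2 * a * ∑ k, (B c i k * v b k - B b i k * v c k)) ∧
  FLL B (L + r1 a v) (L + r1 a v) = FLL B L L + 2 * FLL B L (r1 a v) + FLL B (r1 a v) (r1 a v) ∧
  FLL B L (r1 a v) = 2 * a * ∑ c, ∑ b, ∑ i, ∑ j, cmt (B c) (B b) i j * ∑ k, L c i j k * v b k ∧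
  FLL B (r1 a v) (r1 a v) = 2 * a ^ 2 * ∑ c, ∑ b, ∑ i, ∑ j, cmt (B c) (B b) i j * (v c j * v b i)

/-- RB (bounds for the `R1` terms, from R1 and CS). `M = |L|² + q²`, `q² ≥ a|v|²`, `q² ≥ S|y|²`. The difference
`Qf(L + R1) - Qf(L) - 2 a W|v|² = W (4 a ∑ tr(L)·v + 2a²|v|²) + [4 l·l(R1) + 2|l(R1)|²] + 2 l(R1)·(z - F⁰v) + 2 lam (W + S) y·l(R1) - bet (2 θ·θ(R1) + |θ(R1)|² + e12·θ(R1) + 4 FLL(L, R1) + 2 FLL(R1, R1))`
(here `a n = 1`, `W = kap a + S`). Every term except the first is at most a constant times `s W M` (sum of the constants below `105`): `|l(R1)|² ≤ 4 a² S|v|²`, `|θ(R1)|² ≤ 16 a² S|v|²`,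
`|FLL(L, R1)| ≤ 4 a S |L||v|`, `|FLL(R1, R1)| ≤ 4 a² S|v|²`; `s = √a`. -/
def StRB : Prop := ∀ (n p : ℕ) (kap bet lam a s q : ℝ) (h : Fin n → Fin n → ℝ)
  (B : Fin p → Fin n → Fin n → ℝ) (L : Fin p → Fin n → Fin n → Fin n → ℝ)
  (v : Fin p → Fin n → ℝ) (y : Fin n → ℝ),
  (∀ c i j, B c i j = B c j i) → (∀ c i j k, L c i j k = L c i k j) →
  0 ≤ kap → 0 ≤ bet → bet ≤ 1 → 0 ≤ lam → lam ≤ 1 → a * n = 1 → 0 ≤ s → s ≤ 1 → s ^ 2 = a →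
  nh h + sB B ≤ 2 * a → a * nv v ≤ q ^ 2 → sB B * ∑ i, y i ^ 2 ≤ q ^ 2 →
  Qf kap bet lam a h B L v y + 2 * a * ((kap * a + sB B) * nv v)
    + (kap * a + sB B) * (4 * (a * ∑ c, ∑ k, (∑ i, L c i i k) * v c k))
    - 110 * (s * ((kap * a + sB B) * (nL L + q ^ 2))) ≤
  Qf kap bet lam a h B (L + r1 a v) v y

/-- DC (decomposition, exact). -/
def StDC : Prop := ∀ (n p : ℕ) (a : ℝ) (h : Fin n → Fin n → ℝ) (B : Fin p → Fin n → Fin n → ℝ)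
  (T : Fin p → Fin n → Fin n → Fin n → ℝ) (y X : Fin n → ℝ),
  (∀ i j, h i j = h j i) → (∀ c i j, B c i j = B c j i) → ∑ i, h i i = 1 →
  (∀ c, ∑ i, B c i i = 0) → Sym3 T → a * n = 1 →
  ∃ (m : Fin n → Fin n → ℝ) (T0 : Fin p → Fin n → Fin n → Fin n → ℝ)
    (r : Fin p → Fin n → ℝ) (rho : Fin n → ℝ),
    (∀ i j, m i j = m j i) ∧ Sym3 T0 ∧ nh m = nh h - a ∧
    (∀ c i, r c i = vT T c i - ∑ j, B c i j * X j) ∧ (∀ i, rho i = y i - ∑ j, h i j * X j) ∧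
    (∀ c i j, cmt h (B c) i j = cmt m (B c) i j) ∧ (∀ c, pB h B c = pB m B c) ∧
    vT T = bX B X + r ∧ (fun i => y i - a * X i) = mX m X + rho ∧
    Lf h B T (vT T) y = (Lf m B T0 (bX B X) (mX m X) + r1 a (bX B X)) +
      (r1 a r + fun c i j k => -(m j k * r c i) - (a * X i + rho i) * B c j k) ∧
    (∀ c k, ∑ i, Lf m B T0 (bX B X) (mX m X) c i i k =
      -(2 * a * (bX B X c k + r c k)) - (∑ i, m i k * bX B X c i) - ∑ i, B c i k * mX m X i)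

/-- ZB (sizes). `q² = a S|X|²`: `a|v0|² ≤ q²`, `S|y0|² ≤ q²`; the trace term; `N(e)`. -/
def StZB : Prop := ∀ (n p : ℕ) (a s : ℝ) (m : Fin n → Fin n → ℝ) (B : Fin p → Fin n → Fin n → ℝ)
  (X rho : Fin n → ℝ) (r : Fin p → Fin n → ℝ),
  (∀ i j, m i j = m j i) → (∀ c i j, B c i j = B c j i) → a * n = 1 → 0 ≤ s → s ≤ 1 → s ^ 2 = a →
  nh m + sB B ≤ a →
  a * nv (bX B X) ≤ a * (sB B * ∑ i, X i ^ 2) ∧
  sB B * ∑ i, mX m X i ^ 2 ≤ a * (sB B * ∑ i, X i ^ 2) ∧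
  -(20 * (s * (a * (sB B * ∑ i, X i ^ 2))) + 20 * nv r) ≤
    4 * (a * ∑ c, ∑ k, (-(2 * a * (bX B X c k + r c k)) - (∑ i, m i k * bX B X c i)
      - ∑ i, B c i k * mX m X i) * bX B X c k) ∧
  NN a B (r1 a r + fun c i j k => -(m j k * r c i) - (a * X i + rho i) * B c j k) r rho ≤
    6 * a * (a * (sB B * ∑ i, X i ^ 2)) + 30 * (nv r + ∑ i, rho i ^ 2)

/-- FIN (assembly, helper13; from GQ, QF, BD, R1, RB, DC, ZB). `a = 1/n`, `s = √a`, `q² = a S|X|²`, `z1 = (L0 + r1 a v0, v0, y0)`, `e = (E, r, ρ)`. QF with `d = s` and BD for `e` and `z1 + e/s` (`N(z1 + e/s) ≤ 2 N(z1) + 2 N(e)/a`, `N(z1) ≤ 2|L0|² + 10 q²`):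
`Ga ≥ (1-s) (Qf(z1) + W lam (1-a) q²) - 70 W (18 s q² + 2 s (2|L0|² + 10 q²)) - C (|r|² + |ρ|²)`; RB with DC and ZB: `Qf(z1) ≥ Qf(z0) + 2aW|v0|² - 130 s W M - ..`; and `Qf(z0) + 2aW|v0|² + W lam (1-a) q² = G0 (w = a) + W lam (τ - a) q²`
(`cmt h (B c) = cmt m (B c)`, `pB h B = pB m B`, `nh h = nh m + a`), LIML at `w = a`. Sum of the error constants: `2800 s W M`. -/
def StFIN : Prop := ∀ kap bet lam tau eta : ℝ, 0 < kap → kap ≤ 1 → 0 ≤ bet → bet ≤ 1 → 0 ≤ lam →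
  lam ≤ 1 → tau ≤ 1 → eta ≤ 1 → LIML kap bet lam tau eta →
  ∀ n : ℕ, 100 ≤ n → 0 < eta → 0 < tau → (4000 : ℝ) ^ 2 ≤ n * eta ^ 2 → (4000 : ℝ) ^ 2 ≤ n * (lam * tau) ^ 2 →
  CGRAD n kap bet lam

end Pool.Agent.Helper39.YM
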